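import Pool.Agent.BEL.StmtsE

/-! Squad BEL (MP_be01ff_an), row NEM: the Nemytskii operators. -/

namespace Pool.Agent.BEL.H47

open MeasureTheory Filter Topology Set
open scoped InnerProductSpace ENNReal NNReal

theorem nem_memLp {X : Type} [MeasurableSpace X] {μ : Measure X} {g : ℝ → ℝ} {K : ℝ≥0}
    (hg : LipschitzWith K g) (h0 : g 0 = 0) (v : Lp ℝ 2 μ) :
    MemLp (fun x => g (v x)) 2 μ :=
  hg.comp_memLp h0 (Lp.memLp v)

theorem nem_ae {X : Type} [MeasurableSpace X] {μ : Measure X} {g : ℝ → ℝ} {K : ℝ≥0}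
    (hg : LipschitzWith K g) (h0 : g 0 = 0) (v : Lp ℝ 2 μ) :
    ∀ᵐ x ∂μ, nem μ g v x = g (v x) := by
  have h := nem_memLp hg h0 v
  have e : nem μ g v = h.toLp _ := by
    unfold nem
    exact dif_pos h
  rw [e]
  exact h.coeFn_toLp

theorem nem : NemStmt := by
  intro X _ μ g K hg h0
  have hae := fun v : Lp ℝ 2 μ => nem_ae hg h0 v
  have hint : ∀ v w : Lp ℝ 2 μ, Integrable (fun x => g (v x) * w x) μ := fun v w =>
    (nem_memLp hg h0 v).integrable_mul (Lp.memLp w)
  have hin : ∀ v w : Lp ℝ 2 μ, ⟪Pool.Agent.BEL.nem μ g v, w⟫_ℝ = ∫ x, g (v x) * w x ∂μ := by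
    intro v w
    rw [L2.inner_def]
    refine integral_congr_ae ?_
    filter_upwards [hae v] with x hx
    rw [hx]
    simp [mul_comm]
  refine ⟨hae, ?_, ?_, hin, hint, ?_⟩
  · refine LipschitzWith.of_dist_le_mul fun v w => ?_
    rw [dist_eq_norm, dist_eq_norm]
    refine Lp.norm_le_mul_norm_of_ae_le_mul ?_
    filter_upwards [hae v, hae w, Lp.coeFn_sub (Pool.Agent.BEL.nem μ g v) (Pool.Agent.BEL.nem μ g w),
      Lp.coeFn_sub v w] with x h1 h2 h3 h4
    rw [h3, h4, Pi.sub_apply, Pi.sub_apply, h1, h2]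
    have := hg.dist_le_mul (v x) (w x)
    rwa [dist_eq_norm, dist_eq_norm] at this
  · rw [Lp.eq_zero_iff_ae_eq_zero]
    filter_upwards [hae 0, Lp.coeFn_zero ℝ 2 μ] with x h1 h2
    rw [h1, h2]
    simpa using h0
  · intro hm v w
    rw [inner_sub_left, inner_sub_right, inner_sub_right, hin, hin, hin, hin]
    have e : ∫ x, (g (v x) - g (w x)) * (v x - w x) ∂μ =
        (∫ x, g (v x) * v x ∂μ - ∫ x, g (v x) * w x ∂μ) -
        (∫ x, g (w x) * v x ∂μ - ∫ x, g (w x) * w x ∂μ) := by
      have i1 : Integrable (fun x => g (v x) * v x - g (v x) * w x) μ :=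
        (hint v v).sub (hint v w)
      have i2 : Integrable (fun x => g (w x) * v x - g (w x) * w x) μ :=
        (hint w v).sub (hint w w)
      rw [← integral_sub (hint v v) (hint v w), ← integral_sub (hint w v) (hint w w),
        ← integral_sub i1 i2]
      refine integral_congr_ae (Filter.Eventually.of_forall fun x => ?_)
      simp only
      ring
    rw [← e]
    refine integral_nonneg fun x => ?_
    simp only [Pi.zero_apply]
    rcases le_total (v x) (w x) with h | h
    · exact mul_nonneg_of_nonpos_of_nonpos (sub_nonpos.2 (hm h)) (sub_nonpos.2 h)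
    · exact mul_nonneg (sub_nonneg.2 (hm h)) (sub_nonneg.2 h)

end Pool.Agent.BEL.H47
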