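import Pool.Agent.BEL.StmtsE

/-! Squad BEL (MP_be01ff_an), row LIM: existence of the limit. -/

namespace Pool.Agent.BEL.H47

open MeasureTheory Filter Topology Set
open scoped InnerProductSpace ENNReal NNReal

theorem lim_dense {H : Type} [NormedAddCommGroup H] [InnerProductSpace ℝ H] [CompleteSpace H]
    {κ : Type} (b : HilbertBasis κ ℝ H) :
    Dense {V : KK H | ∃ J : Finset κ, ∀ j, j ∉ J → ⟪b j, P1 V⟫_ℝ = 0 ∧ ⟪b j, P2 V⟫_ℝ = 0} := by
  classical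
  intro V
  have key : ∀ x : H, Tendsto (fun J : Finset κ => ∑ j ∈ J, ⟪b j, x⟫_ℝ • b j) atTop (𝓝 x) := by
    intro x
    have h := b.hasSum_repr x
    simp only [b.repr_apply_apply] at h
    exact h
  let e := (WithLp.prodContinuousLinearEquiv 2 ℝ H H).symm
  have hV : e (P1 V, P2 V) = V := rfl
  have ht : Tendsto (fun J : Finset κ => e (∑ j ∈ J, ⟪b j, P1 V⟫_ℝ • b j,
      ∑ j ∈ J, ⟪b j, P2 V⟫_ℝ • b j)) atTop (𝓝 V) := by
    have h1 := (key (P1 V)).prodMk_nhds (key (P2 V))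
    have h2 := (e.continuous.tendsto (P1 V, P2 V)).comp h1
    rw [hV] at h2
    exact h2
  have hz : ∀ (J : Finset κ) (c : κ → ℝ) (j : κ), j ∉ J → ⟪b j, ∑ i ∈ J, c i • b i⟫_ℝ = 0 := by
    intro J c j hj
    rw [inner_sum]
    refine Finset.sum_eq_zero fun i hi => ?_
    have hij : j ≠ i := fun h => hj (h ▸ hi)
    rw [inner_smul_right, b.orthonormal.2 hij, mul_zero]
  refine mem_closure_of_tendsto ht (Filter.Eventually.of_forall fun J => ?_)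
  exact ⟨J, fun j hj => ⟨hz J _ j hj, hz J _ j hj⟩⟩

theorem lim_bdd {X : Type} [MeasurableSpace X] {μ : Measure X} {κ : Type}
    (u : κ → Lp ℝ 2 μ) (hu : ∀ j, ∃ B : ℝ, 0 ≤ B ∧ ∀ᵐ x ∂μ, |u j x| ≤ B) (c : κ → ℝ)
    (J : Finset κ) : ∃ B : ℝ, 0 ≤ B ∧ ∀ᵐ x ∂μ, |(∑ j ∈ J, c j • u j : Lp ℝ 2 μ) x| ≤ B := by
  classical
  induction J using Finset.induction_on with
  | empty =>
    refine ⟨0, le_rfl, ?_⟩
    filter_upwards [Lp.coeFn_zero ℝ 2 μ] with x hx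
    rw [Finset.sum_empty, hx]
    simp
  | insert i s hi ih =>
    obtain ⟨B, hB, hb⟩ := ih
    obtain ⟨A, hA, ha⟩ := hu i
    refine ⟨|c i| * A + B, by positivity, ?_⟩
    rw [Finset.sum_insert hi]
    filter_upwards [hb, ha, Lp.coeFn_add (c i • u i) (∑ j ∈ s, c j • u j),
      Lp.coeFn_smul (c i) (u i)] with x h1 h2 h3 h4
    rw [h3, Pi.add_apply, h4, Pi.smul_apply, smul_eq_mul]
    refine (abs_add_le _ _).trans (add_le_add ?_ h1)
    rw [abs_mul]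
    exact mul_le_mul_of_nonneg_left h2 (abs_nonneg _)

theorem lim_basis {X : Type} [MeasurableSpace X] {μ : Measure X} {a al : ℝ}
    {κ : Type} {b : HilbertBasis κ ℝ (Lp ℝ 2 μ)} {om : κ → ℝ} {R : Lp ℝ 2 μ →L[ℝ] Lp ℝ 2 μ}
    {W : ℝ → KK (Lp ℝ 2 μ) →L[ℝ] KK (Lp ℝ 2 μ)} {Js : ℕ → Finset κ}
    (hc : Cor μ a al b om R W Js) (j : κ) : ∃ B : ℝ, 0 ≤ B ∧ ∀ᵐ x ∂μ, |b j x| ≤ B := by
  obtain ⟨C, hC, h1⟩ := hc.j1
  obtain ⟨n, hn⟩ := (hc.j2 j).exists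
  refine ⟨Real.sqrt (C * (Js n).card), Real.sqrt_nonneg _, ?_⟩
  filter_upwards [h1 n] with x hx
  refine Real.abs_le_sqrt (le_trans ?_ hx)
  exact Finset.single_le_sum (f := fun j => (b j x) ^ 2) (fun i _ => sq_nonneg _) hn

theorem lim (ENG : EngStmt) (FLP : FlpStmt) (REG : RegStmt) (CVG : CvgStmt)
    (GLP : GlpStmt) (NEM : NemStmt) (NEB : NebStmt) (CAM : CamStmt) : LimStmt := by
  intro X _ μ _ a al κ b om R W Js hc
  have ha := hc.a_pos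
  have hal := hc.al_pos
  obtain ⟨-, hL, hMo, h0, -⟩ := GLP a al ha hal
  have hn0 : ∀ n : ℕ, (0 : ℝ) ≤ (n : ℝ) := fun n => Nat.cast_nonneg n
  have hF := fun n : ℕ => NEM X μ (gl a al n) _ (hL n (hn0 n)) (h0 n)
  have hFL : ∀ n : ℕ, LipschitzWith (Real.toNNReal (a * (al + 1) * (n : ℝ) ^ al))
      (nem μ (gl a al n)) := fun n => (hF n).2.1
  have hF0 : ∀ n : ℕ, nem μ (gl a al n) 0 = 0 := fun n => (hF n).2.2.1
  have hFM : ∀ (n : ℕ) (x y : Lp ℝ 2 μ), 0 ≤ ⟪nem μ (gl a al n) x - nem μ (gl a al n) y, x - y⟫_ℝ :=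
    fun n => (hF n).2.2.2.2.2 (hMo n (hn0 n))
  have hG := hc.grp
  obtain ⟨w0, hw0, hom⟩ := hc.pos
  have hpos : ∀ j, 0 < om j := fun j => lt_of_lt_of_le hw0 (hom j)
  refine CVG (Lp ℝ 2 μ) κ b om W (fun n => nem μ (gl a al n)) _ hG (fun n => ⟨_, hFL n⟩) hFM hF0
    (lim_dense b) ?_
  rintro V ⟨J, hJ⟩ Z hZ T ε hε
  obtain ⟨p, hp, C, hC, hemb⟩ := hc.emb
  -- the datum is bounded
  obtain ⟨B, hB, hVB⟩ : ∃ B : ℝ, 0 ≤ B ∧ ∀ᵐ x ∂μ, |P2 V x| ≤ B := by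
    obtain ⟨B, hB, h⟩ := lim_bdd (fun j => b j) (lim_basis hc) (fun j => ⟪b j, P2 V⟫_ℝ) J
    refine ⟨B, hB, ?_⟩
    have e : P2 V = ∑ j ∈ J, ⟪b j, P2 V⟫_ℝ • b j := by
      have h1 := b.hasSum_repr (P2 V)
      simp only [b.repr_apply_apply] at h1
      refine h1.unique (hasSum_sum_of_ne_finset_zero fun j hj => ?_)
      rw [(hJ j hj).2, zero_smul]
    rw [← e] at h
    exact h
  set M : ℝ := Real.sqrt (∑ j ∈ J, om j ^ 2 * (⟪b j, P1 V⟫_ℝ ^ 2 + ⟪b j, P2 V⟫_ℝ ^ 2)) +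
    a * B ^ al * ‖P2 V‖ with hM
  have hM0 : 0 ≤ M := by
    have h1 : 0 ≤ a * B ^ al * ‖P2 V‖ :=
      mul_nonneg (mul_nonneg ha.le (Real.rpow_nonneg hB _)) (norm_nonneg _)
    have h2 := Real.sqrt_nonneg (∑ j ∈ J, om j ^ 2 * (⟪b j, P1 V⟫_ℝ ^ 2 + ⟪b j, P2 V⟫_ℝ ^ 2))
    linarith
  have hp0 : 0 < p := by linarith
  have hreg : ∀ (n : ℕ) (t : ℝ), 0 ≤ t → MemLp (P2 (W t (Z n t)) : Lp ℝ 2 μ) (ENNReal.ofReal p) μ ∧
      ∫ x, |P2 (W t (Z n t)) x| ^ p ∂μ ≤ (C * M) ^ p := by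
    intro n t ht
    obtain ⟨w, hw, hwM⟩ := REG (Lp ℝ 2 μ) κ b om W R (nem μ (gl a al n)) _ V J (Z n) hG hc.isr hpos
      (hFL n) (hFM n) (hF0 n) hJ (hZ n) t ht
    have h1 := NEB X μ a al B n (P2 V) ha hal hB (hn0 n) hVB
    have hwM' : ‖w‖ ≤ M := by linarith
    obtain ⟨h2, h3⟩ := hemb w
    rw [hw]
    refine ⟨h2, h3.trans ?_⟩
    exact Real.rpow_le_rpow (mul_nonneg hC.le (norm_nonneg _))
      (mul_le_mul_of_nonneg_left hwM' hC.le) hp0.le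
  set L : ℝ := 3 * a * (2 * (C * M) ^ p) with hLdef
  have hL0 : 0 ≤ L := by
    have : 0 ≤ (C * M) ^ p := Real.rpow_nonneg (mul_nonneg hC.le hM0) _
    positivity
  -- the estimate of the difference
  have hdiff : ∀ n m : ℕ, 1 ≤ n → n ≤ m → ∀ t, 0 ≤ t →
      ‖Z n t - Z m t‖ ^ 2 ≤ 2 * t * (L * (n : ℝ) ^ (al + 2 - p)) := by
    intro n m hn hnm t ht
    have cn := FLP (Lp ℝ 2 μ) κ b om W (nem μ (gl a al n)) _ hG (hFL n) (hFM n) (hF0 n) V V (Z n)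
      (Z n) (hZ n) (hZ n)
    have cm := FLP (Lp ℝ 2 μ) κ b om W (nem μ (gl a al m)) _ hG (hFL m) (hFM m) (hF0 m) V V (Z m)
      (Z m) (hZ m) (hZ m)
    have hcont : Continuous fun t => nem μ (gl a al n) (P2 (W t (Z n t))) -
        nem μ (gl a al m) (P2 (W t (Z m t))) := cn.2.1.sub cm.2.1
    have hder : ∀ t, HasDerivAt (fun t => Z n t - Z m t)
        (-(W (-t) (inj (nem μ (gl a al n) (P2 (W t (Z n t))) -
          nem μ (gl a al m) (P2 (W t (Z m t))))))) t := by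
      intro t
      have h := ((hZ n).eq t).sub ((hZ m).eq t)
      have e : -(W (-t) (inj (nem μ (gl a al n) (P2 (W t (Z n t)))))) -
          -(W (-t) (inj (nem μ (gl a al m) (P2 (W t (Z m t)))))) =
          -(W (-t) (inj (nem μ (gl a al n) (P2 (W t (Z n t))) -
          nem μ (gl a al m) (P2 (W t (Z m t)))))) := by
        rw [map_sub, map_sub]
        abel
      rw [← e]
      exact h
    obtain ⟨hv, hE⟩ := ENG (Lp ℝ 2 μ) κ b om W (fun t => Z n t - Z m t) _ hG hcont hder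
    have hE0 := hE 0 t
    have hpt : ∀ r ∈ Icc (0 : ℝ) t, -(L * (n : ℝ) ^ (al + 2 - p)) ≤
        ⟪nem μ (gl a al n) (P2 (W r (Z n r))) - nem μ (gl a al m) (P2 (W r (Z m r))),
          P2 (W r (Z n r - Z m r))⟫_ℝ := by
      intro r hr
      have h1 := hreg n r hr.1
      have h2 := hreg m r hr.1
      have h3 := CAM X μ a al p n m (P2 (W r (Z n r))) (P2 (W r (Z m r))) ha hal
        (by exact_mod_cast hn) (by exact_mod_cast hnm) hp h1.1 h2.1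
      rw [map_sub, map_sub]
      refine le_trans ?_ h3
      have h4 : 0 ≤ 3 * a * (n : ℝ) ^ (al + 2 - p) := by
        have := Real.rpow_nonneg (hn0 n) (al + 2 - p)
        positivity
      have h5 := mul_le_mul_of_nonneg_left (add_le_add h1.2 h2.2) h4
      have h6 : L * (n : ℝ) ^ (al + 2 - p) =
          3 * a * (n : ℝ) ^ (al + 2 - p) * ((C * M) ^ p + (C * M) ^ p) := by
        rw [hLdef]; ring
      linarith
    have hint : -(t * (L * (n : ℝ) ^ (al + 2 - p))) ≤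
        ∫ r in (0 : ℝ)..t, ⟪nem μ (gl a al n) (P2 (W r (Z n r))) -
          nem μ (gl a al m) (P2 (W r (Z m r))), P2 (W r (Z n r - Z m r))⟫_ℝ := by
      have hci : Continuous fun r => ⟪nem μ (gl a al n) (P2 (W r (Z n r))) -
          nem μ (gl a al m) (P2 (W r (Z m r))), P2 (W r (Z n r - Z m r))⟫_ℝ :=
        hcont.inner hv
      have h1 := intervalIntegral.integral_mono_on (μ := volume) ht
        ((continuous_const (y := -(L * (n : ℝ) ^ (al + 2 - p)))).intervalIntegrable 0 t)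
        (hci.intervalIntegrable 0 t) hpt
      rw [intervalIntegral.integral_const, smul_eq_mul] at h1
      linarith
    have hz : Z n 0 - Z m 0 = 0 := by rw [(hZ n).z0, (hZ m).z0, sub_self]
    simp only [hz, norm_zero] at hE0
    nlinarith
  -- conclusion
  have hlim : Tendsto (fun n : ℕ => 2 * |T| * (L * (n : ℝ) ^ (al + 2 - p))) atTop (𝓝 0) := by
    have h1 : Tendsto (fun n : ℕ => (n : ℝ) ^ (-(p - (al + 2)))) atTop (𝓝 0) :=
      (tendsto_rpow_neg_atTop (by linarith)).comp tendsto_natCast_atTop_atTop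
    have h2 := (h1.const_mul L).const_mul (2 * |T|)
    have e : -(p - (al + 2)) = al + 2 - p := by ring
    rw [e, mul_zero, mul_zero] at h2
    exact h2
  have hev : ∀ᶠ n : ℕ in atTop, 2 * |T| * (L * (n : ℝ) ^ (al + 2 - p)) < ε ^ 2 :=
    hlim.eventually (gt_mem_nhds (by positivity))
  obtain ⟨N, hN⟩ := eventually_atTop.1 hev
  refine ⟨max N 1, fun n hn m hm t ht => ?_⟩
  have h1 := hdiff n m (le_trans (le_max_right _ _) hn) hm t ht.1
  have h2 := hN n (le_trans (le_max_left _ _) hn)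
  have h3 : t ≤ |T| := ht.2.trans (le_abs_self T)
  have h4 : 0 ≤ L * (n : ℝ) ^ (al + 2 - p) := mul_nonneg hL0 (Real.rpow_nonneg (hn0 n) _)
  have h5 : 2 * t * (L * (n : ℝ) ^ (al + 2 - p)) ≤ 2 * |T| * (L * (n : ℝ) ^ (al + 2 - p)) :=
    mul_le_mul_of_nonneg_right (by linarith) h4
  exact (sq_le_sq₀ (norm_nonneg _) hε.le).1 (by linarith)

end Pool.Agent.BEL.H47
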